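import Mathlib

set_option autoImplicit false

/-!
The finitary automorphism group of the rooted binary tree.  A vertex is a list over `ZMod 2`,
its parent is the tail.  An automorphism is described by its portrait
`σ : List (ZMod 2) → ZMod 2`.
-/

namespace Pool.Agent.NH50.FinAut

abbrev V := List (ZMod 2)

/-- the map with portrait `σ` -/
def act (σ : V → ZMod 2) : V → V
  | [] => []
  | b :: w => (b + σ w) :: act σ w

/-- the inverse map -/
def iact (σ : V → ZMod 2) : V → V
  | [] => []
  | b :: w => (b - σ (iact σ w)) :: iact σ w

theorem act_iact (σ : V → ZMod 2) : ∀ w, act σ (iact σ w) = w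
  | [] => rfl
  | b :: w => by
    simp [act, iact, act_iact σ w]

theorem iact_act (σ : V → ZMod 2) : ∀ w, iact σ (act σ w) = w
  | [] => rfl
  | b :: w => by
    simp [act, iact, iact_act σ w]

/-- the permutation with portrait `σ` -/
def toPerm (σ : V → ZMod 2) : Equiv.Perm V where
  toFun := act σ
  invFun := iact σ
  left_inv := iact_act σ
  right_inv := act_iact σ

/-- `σ` is the portrait of `g` -/
def IsPortrait (g : Equiv.Perm V) (σ : V → ZMod 2) : Prop :=
  g [] = [] ∧ ∀ b w, g (b :: w) = (b + σ w) :: g w

theorem isPortrait_toPerm (σ : V → ZMod 2) : IsPortrait (toPerm σ) σ :=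
  ⟨rfl, fun _ _ => rfl⟩

theorem IsPortrait.length {g : Equiv.Perm V} {σ : V → ZMod 2} (h : IsPortrait g σ) :
    ∀ w, (g w).length = w.length
  | [] => by rw [h.1]
  | b :: w => by rw [h.2, List.length_cons, List.length_cons, h.length w]

theorem IsPortrait.tail {g : Equiv.Perm V} {σ : V → ZMod 2} (h : IsPortrait g σ) :
    ∀ w, (g w).tail = g w.tail
  | [] => by rw [List.tail_nil, h.1]; rfl
  | b :: w => by rw [h.2]; rfl

theorem apply_inv (g : Equiv.Perm V) (w : V) : g (g⁻¹ w) = w := g.apply_symm_apply w

theorem IsPortrait.inv_length {g : Equiv.Perm V} {σ : V → ZMod 2} (h : IsPortrait g σ) (w : V) :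
    (g⁻¹ w).length = w.length := by
  have := h.length (g⁻¹ w)
  rw [apply_inv] at this
  exact this.symm

theorem IsPortrait.one : IsPortrait 1 (fun _ => 0) := ⟨rfl, fun b w => by simp⟩

theorem IsPortrait.mul {g h : Equiv.Perm V} {σ τ : V → ZMod 2} (hg : IsPortrait g σ)
    (hh : IsPortrait h τ) : IsPortrait (g * h) (fun w => τ w + σ (h w)) := by
  refine ⟨by simp [hg.1, hh.1], fun b w => ?_⟩
  rw [Equiv.Perm.mul_apply, hh.2, hg.2, Equiv.Perm.mul_apply, add_assoc]

theorem IsPortrait.inv {g : Equiv.Perm V} {σ : V → ZMod 2} (hg : IsPortrait g σ) :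
    IsPortrait g⁻¹ (fun w => - σ (g⁻¹ w)) := by
  refine ⟨by rw [Equiv.Perm.inv_eq_iff_eq, hg.1], fun b w => ?_⟩
  rw [Equiv.Perm.inv_eq_iff_eq, hg.2, apply_inv, neg_add_cancel_right]

theorem IsPortrait.unique {g : Equiv.Perm V} {σ τ : V → ZMod 2} (h : IsPortrait g σ)
    (h' : IsPortrait g τ) : σ = τ := by
  funext w
  have h1 := h.2 0 w
  rw [h'.2] at h1
  simpa using (List.cons.inj h1).1.symm

/-- finitary automorphisms -/
def G : Subgroup (Equiv.Perm V) where
  carrier := {g | ∃ σ : V → ZMod 2, IsPortrait g σ ∧ ∃ N, ∀ w : V, N ≤ w.length → σ w = 0}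
  one_mem' := ⟨_, IsPortrait.one, 0, fun _ _ => rfl⟩
  mul_mem' := by
    rintro g h ⟨σ, hσ, N, hN⟩ ⟨τ, hτ, M, hM⟩
    refine ⟨_, hσ.mul hτ, max N M, fun w hw => ?_⟩
    rw [hM w (le_trans (le_max_right _ _) hw),
      hN (h w) (by rw [hτ.length]; exact le_trans (le_max_left _ _) hw), add_zero]
  inv_mem' := by
    rintro g ⟨σ, hσ, N, hN⟩
    refine ⟨_, hσ.inv, N, fun w hw => ?_⟩
    rw [hN _ (by rw [hσ.inv_length]; exact hw), neg_zero]

/-- the portrait of an element of `G` -/
noncomputable def por (g : G) : V → ZMod 2 := g.2.choose

theorem por_spec (g : G) : IsPortrait (g : Equiv.Perm V) (por g) := g.2.choose_spec.1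

theorem por_bound (g : G) : ∃ N, ∀ w : V, N ≤ w.length → por g w = 0 := g.2.choose_spec.2

theorem por_mul (g h : G) (w : V) : por (g * h) w = por h w + por g ((h : Equiv.Perm V) w) := by
  have := ((por_spec (g * h)).unique ((por_spec g).mul (por_spec h)))
  exact congrFun this w

theorem por_one (w : V) : por 1 w = 0 :=
  congrFun ((por_spec 1).unique IsPortrait.one) w

theorem finite_length_lt (N : ℕ) : {w : V | w.length < N}.Finite :=
  List.finite_length_lt _ N

theorem por_finite (g : G) : (Function.support (por g)).Finite := by
  obtain ⟨N, hN⟩ := por_bound g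
  refine (finite_length_lt N).subset fun w hw => ?_
  by_contra hlt
  exact hw (hN w (not_lt.1 hlt))

/-- the summand of the character attached to a set `S` of levels -/
noncomputable def term (S : Set ℕ) (g : G) (w : V) : ZMod 2 :=
  open Classical in if w.length ∈ S then por g w else 0

theorem term_finite (S : Set ℕ) (g : G) : (Function.support (term S g)).Finite := by
  refine (por_finite g).subset fun w hw => ?_
  intro h0
  apply hw
  unfold term
  split_ifs
  · exact h0
  · rfl

theorem term_mul (S : Set ℕ) (g h : G) (w : V) :
    term S (g * h) w = term S h w + term S g ((h : Equiv.Perm V) w) := by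
  unfold term
  rw [(por_spec h).length w]
  split_ifs
  · exact por_mul g h w
  · simp

/-- the character attached to a set `S` of levels -/
noncomputable def chi (S : Set ℕ) : G →* Multiplicative (ZMod 2) where
  toFun g := Multiplicative.ofAdd (∑ᶠ w, term S g w)
  map_one' := by
    have : ∀ w, term S 1 w = 0 := by
      intro w
      unfold term
      split_ifs
      · exact por_one w
      · rfl
    simp [this]
  map_mul' g h := by
    rw [← ofAdd_add]
    congr 1
    have h1 : (fun w => term S (g * h) w) =
        fun w => term S h w + term S g ((h : Equiv.Perm V) w) := by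
      funext w; exact term_mul S g h w
    have h2 : (Function.support fun w => term S g ((h : Equiv.Perm V) w)).Finite := by
      have : (Function.support fun w => term S g ((h : Equiv.Perm V) w)) =
          (h : Equiv.Perm V) ⁻¹' (Function.support (term S g)) := rfl
      rw [this]
      exact (term_finite S g).preimage ((h : Equiv.Perm V).injective.injOn)
    rw [h1, finsum_add_distrib (term_finite S h) h2,
      finsum_comp_equiv (h : Equiv.Perm V) (f := term S g), add_comm]

/-- swapping the two children of `w` -/
noncomputable def tauPor (w : V) : V → ZMod 2 := fun u => open Classical in if u = w then 1 else 0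

noncomputable def tau (w : V) : G :=
  ⟨toPerm (tauPor w), tauPor w, isPortrait_toPerm _, w.length + 1, fun u hu => by
    unfold tauPor
    rw [if_neg]
    rintro rfl
    omega⟩

theorem por_tau (w : V) : por (tau w) = tauPor w :=
  (por_spec (tau w)).unique (isPortrait_toPerm _)

theorem term_tau (S : Set ℕ) (w u : V) :
    term S (tau w) u = open Classical in if u = w then (if w.length ∈ S then 1 else 0) else 0 := by
  unfold term
  rw [por_tau]
  unfold tauPor
  by_cases h : u = w
  · subst h; simp
  · simp [h]

theorem chi_tau (S : Set ℕ) (w : V) :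
    chi S (tau w) = Multiplicative.ofAdd
      (open Classical in if w.length ∈ S then (1 : ZMod 2) else 0) := by
  classical
  change Multiplicative.ofAdd (∑ᶠ u, term S (tau w) u) = _
  congr 1
  rw [finsum_eq_single _ w]
  · rw [term_tau]; simp
  · intro u hu
    rw [term_tau, if_neg hu]

/-- `tau w` fixes everything not strictly below `w` -/
theorem tau_fix (w : V) : ∀ u : V, (∀ k : ℕ, List.tail^[k] u ≠ w) →
    ((tau w : G) : Equiv.Perm V) u = u
  | [] => fun _ => (por_spec (tau w)).1
  | b :: u => fun h => by
    have hu : ∀ k : ℕ, List.tail^[k] u ≠ w := fun k => by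
      have := h (k + 1)
      rwa [Function.iterate_succ_apply] at this
    rw [(por_spec (tau w)).2, tau_fix w u hu, por_tau]
    unfold tauPor
    rw [if_neg (show u ≠ w from hu 0), add_zero]

theorem tail_iterate_length (u : V) (k : ℕ) : (List.tail^[k] u).length = u.length - k := by
  induction k generalizing u with
  | zero => simp
  | succ k ih => rw [Function.iterate_succ_apply, ih, List.length_tail]; omega

theorem tau_fix_of_length_le (w u : V) (h : u.length ≤ w.length) :
    ((tau w : G) : Equiv.Perm V) u = u := by
  rcases Nat.lt_or_ge u.length w.length with hlt | hge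
  · apply tau_fix
    intro k hk
    have := tail_iterate_length u k
    rw [hk] at this
    omega
  · cases u with
    | nil => exact (por_spec (tau w)).1
    | cons b u =>
      rw [(por_spec (tau w)).2, por_tau]
      have hu : ((tau w : G) : Equiv.Perm V) u = u := by
        apply tau_fix
        intro k hk
        have := tail_iterate_length u k
        rw [hk] at this
        simp at h hge
        omega
      rw [hu]
      unfold tauPor
      rw [if_neg, add_zero]
      rintro rfl
      simp at h

/-- level stabilisers -/
def Stab (n : ℕ) : Subgroup G where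
  carrier := {g | ∀ w : V, w.length ≤ n → (g : Equiv.Perm V) w = w}
  one_mem' := fun w _ => rfl
  mul_mem' := by
    intro g h hg hh w hw
    have : ((g * h : G) : Equiv.Perm V) w = (g : Equiv.Perm V) ((h : Equiv.Perm V) w) := rfl
    rw [this, hh w hw, hg w hw]
  inv_mem' := by
    intro g hg w hw
    have : ((g⁻¹ : G) : Equiv.Perm V) w = (g : Equiv.Perm V)⁻¹ w := rfl
    rw [this, Equiv.Perm.inv_eq_iff_eq, hg w hw]

theorem mem_Stab {n : ℕ} {g : G} :
    g ∈ Stab n ↔ ∀ w : V, w.length ≤ n → (g : Equiv.Perm V) w = w := Iff.rfl

/-- the action on the vertices of level at most `n` -/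
def levHom (n : ℕ) : G →* Equiv.Perm {w : V // w.length ≤ n} where
  toFun g := Equiv.Perm.subtypePerm (g : Equiv.Perm V) (fun w => by
    obtain ⟨σ, hσ, -⟩ := g.2
    rw [hσ.length])
  map_one' := by ext; rfl
  map_mul' g h := by ext; rfl

theorem Stab_eq_ker (n : ℕ) : Stab n = (levHom n).ker := by
  ext g
  rw [mem_Stab, MonoidHom.mem_ker]
  constructor
  · intro h
    apply Equiv.ext
    intro w
    exact Subtype.ext (h w.1 w.2)
  · intro h w hw
    have := congrArg (fun e : Equiv.Perm {w : V // w.length ≤ n} => ((e ⟨w, hw⟩ : _) : V)) h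
    exact this

instance (n : ℕ) : Finite {w : V // w.length ≤ n} := by
  have : {w : V | w.length ≤ n}.Finite := List.finite_length_le _ n
  exact this.to_subtype

instance (n : ℕ) : (Stab n).Normal := by
  rw [Stab_eq_ker]; infer_instance

instance (n : ℕ) : (Stab n).FiniteIndex := by
  rw [Stab_eq_ker]; infer_instance

instance (S : Set ℕ) : (chi S).ker.FiniteIndex := by
  infer_instance

/-- the sequence attached to `S` -/
noncomputable def M (S : Set ℕ) (i : ℕ) : Subgroup G := Stab i ⊓ (chi S).ker

instance (S : Set ℕ) (i : ℕ) : (M S i).Normal := by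
  unfold M; infer_instance

instance (S : Set ℕ) (i : ℕ) : (M S i).FiniteIndex := by
  unfold M; infer_instance

theorem Stab_anti : Antitone Stab := by
  intro i j hij g hg w hw
  exact hg w (hw.trans hij)

theorem M_anti (S : Set ℕ) : Antitone (M S) := fun _ _ hij =>
  inf_le_inf_right _ (Stab_anti hij)

theorem M_iInf (S : Set ℕ) : (⨅ i, M S i) = ⊥ := by
  rw [eq_bot_iff]
  intro g hg
  rw [Subgroup.mem_iInf] at hg
  rw [Subgroup.mem_bot]
  apply Subtype.ext
  apply Equiv.ext
  intro w
  exact (hg w.length).1 w le_rfl

theorem M_not_le {S T : Set ℕ} {j n i : ℕ} (hn : j ≤ n) (hS : n ∈ S) (hT : n ∉ T) :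
    ¬ M T j ≤ M S i := by
  intro h
  have hlen : (List.replicate n (0 : ZMod 2)).length = n := List.length_replicate
  have hmem : tau (List.replicate n 0) ∈ M T j := by
    refine ⟨fun w hw => ?_, ?_⟩
    · apply tau_fix_of_length_le
      rw [hlen]; exact hw.trans hn
    · change tau (List.replicate n 0) ∈ (chi T).ker
      rw [MonoidHom.mem_ker, chi_tau, hlen, if_neg hT]; rfl
  have : tau (List.replicate n 0) ∈ (chi S).ker := (h hmem).2
  rw [MonoidHom.mem_ker, chi_tau, hlen, if_pos hS] at this
  have h2 : (1 : ZMod 2) = 0 := this
  exact absurd h2 (by decide)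

/-- transitivity on levels -/
theorem transitive : ∀ v w : V, v.length = w.length → ∃ g : G, (g : Equiv.Perm V) v = w
  | [], [] => fun _ => ⟨1, rfl⟩
  | [], _ :: _ => fun h => by simp at h
  | _ :: _, [] => fun h => by simp at h
  | b :: v, c :: w => fun h => by
    obtain ⟨g, hg⟩ := transitive v w (by simpa using h)
    have h1 : (g : Equiv.Perm V) (b :: v) = (b + por g v) :: w := by
      rw [(por_spec g).2, hg]
    by_cases hc : b + por g v = c
    · exact ⟨g, by rw [h1, hc]⟩
    · refine ⟨tau w * g, ?_⟩
      have h2 : ((tau w * g : G) : Equiv.Perm V) (b :: v) =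
          ((tau w : G) : Equiv.Perm V) ((g : Equiv.Perm V) (b :: v)) := rfl
      rw [h2, h1, (por_spec (tau w)).2, por_tau, tau_fix_of_length_le w w le_rfl]
      unfold tauPor
      rw [if_pos rfl]
      congr 1
      have key : ∀ x y : ZMod 2, ¬ x = y → x + 1 = y := by decide
      exact key _ _ hc

/-- rigid stabiliser generators of level `n` -/
def ristSet (n : ℕ) : Set G := {g : G | ∃ v : V, v.length = n ∧
          ∀ w : V, (∀ k : ℕ, List.tail^[k] w ≠ v) → (g : Equiv.Perm V) w = w}

theorem tail_iterate_eq_drop (u : V) (k : ℕ) : List.tail^[k] u = u.drop k := by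
  induction k generalizing u with
  | zero => simp
  | succ k ih => rw [Function.iterate_succ_apply, ih, List.drop_tail]

theorem tau_mem (n : ℕ) (w : V) (hw : n ≤ w.length) : tau w ∈ ristSet n := by
  refine ⟨List.tail^[w.length - n] w, ?_, fun u hu => ?_⟩
  · rw [tail_iterate_length]; omega
  · apply tau_fix
    intro k hk
    apply hu (w.length - n + k)
    rw [Function.iterate_add_apply, hk]

theorem mem_closure_of_por (n : ℕ) : ∀ (c : ℕ) (g : G),
    (por_finite g).toFinset.card = c → (∀ w : V, w.length < n → por g w = 0) →
    g ∈ Subgroup.closure (ristSet n) := by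
  intro c
  induction c with
  | zero =>
    intro g hg _
    have h0 : por g = fun _ => 0 := by
      rw [Finset.card_eq_zero] at hg
      funext w
      by_contra hw
      have : w ∈ (por_finite g).toFinset := by simpa using hw
      rw [hg] at this
      simp at this
    have : g = 1 := by
      apply Subtype.ext
      apply Equiv.ext
      intro w
      induction w with
      | nil => exact (por_spec g).1
      | cons b w ih => rw [(por_spec g).2, ih, h0]; simp
    rw [this]
    exact Subgroup.one_mem _
  | succ c ih =>
    intro g hg hn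
    have hne : (por_finite g).toFinset.Nonempty := by
      rw [← Finset.card_pos]; omega
    obtain ⟨w, hw, hmax⟩ := Finset.exists_max_image (por_finite g).toFinset
      (fun w : V => w.length) hne
    have hw0 : por g w ≠ 0 := by simpa using hw
    have hw1 : por g w = 1 := by
      revert hw0
      generalize por g w = x
      revert x
      decide
    have hwn : n ≤ w.length := by
      by_contra hlt
      exact hw0 (hn w (not_le.1 hlt))
    have hpor : ∀ u, por (g * tau w) u = if u = w then 0 else por g u := by
      intro u
      rw [por_mul, por_tau]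
      unfold tauPor
      rcases Nat.lt_or_ge w.length u.length with hlt | hle
      · have huw : u ≠ w := by rintro rfl; omega
        have hz : ∀ x : V, w.length < x.length → por g x = 0 := by
          intro x hx
          by_contra h0
          have := hmax x (by simpa using h0)
          omega
        rw [if_neg huw, if_neg huw, hz u hlt, hz, add_zero]
        rw [(por_spec (tau w)).length]
        exact hlt
      · rw [tau_fix_of_length_le w u hle]
        by_cases huw : u = w
        · subst huw
          rw [if_pos rfl, if_pos rfl, hw1]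
          decide
        · rw [if_neg huw, if_neg huw, zero_add]
    have hcard : (por_finite (g * tau w)).toFinset.card = c := by
      have : (por_finite (g * tau w)).toFinset = (por_finite g).toFinset.erase w := by
        ext u
        simp only [Set.Finite.mem_toFinset, Function.mem_support, Finset.mem_erase, hpor]
        by_cases huw : u = w
        · simp [huw]
        · simp [huw]
      rw [this, Finset.card_erase_of_mem hw, hg]
      rfl
    have h1 := ih (g * tau w) hcard (fun u hu => by
      rw [hpor]
      split_ifs
      · rfl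
      · exact hn u hu)
    have h2 : tau w ∈ Subgroup.closure (ristSet n) :=
      Subgroup.subset_closure (tau_mem n w hwn)
    have h3 := Subgroup.mul_mem _ h1 (Subgroup.inv_mem _ h2)
    rwa [mul_inv_cancel_right] at h3

theorem Stab_le_closure (n : ℕ) : Stab n ≤ Subgroup.closure (ristSet n) := by
  intro g hg
  apply mem_closure_of_por n _ g rfl
  intro w hw
  have h1 := hg (0 :: w) (by simpa using hw)
  rw [(por_spec g).2] at h1
  simpa using (List.cons.inj h1).1

theorem finiteIndex_closure (n : ℕ) : (Subgroup.closure (ristSet n)).FiniteIndex :=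
  Subgroup.finiteIndex_of_le (Stab_le_closure n)

end Pool.Agent.NH50.FinAut
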